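import Pool.Agent.H458.AG.Gen
import Pool.Agent.H458.BM2.Sur2
import Pool.Agent.H458.PD.Uni
import Pool.Agent.H458.BM.Bnd
import Pool.Agent.H458.BM.Two
import Pool.Agent.H458.BM.Mcp

/-!
# Stoll's conjecture on the varieties with morphisms to a bounded twist of almost all hyperelliptic curves

Let `F` be ANY number field and `g ≥ 1`. We consider ALL polynomials
`f = x ^ (2 g + 1) + a_(2 g - 1) x ^ (2 g - 1) + ... + a_0` with coefficients in the ring of integers of `F`,
ordered by the height: `|σ a_i| ≤ B ^ (2 g + 1 - i)` for all embeddings `σ : F → ℂ`. `C_f` is the curve `y ^ 2 = f(x)`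
of genus `g`, and `C_f ^ d` its quadratic twist by `d`.

For a natural number `R` and `f` let `C(f, R)` be the class of all the finite Galois extensions
`M / F` of 2-power degree in which all the primes dividing `R` split completely, such that for every prime `v`
of `F` either `M / F` is unramified at `v` or `f` is irreducible modulo `v`, and such that for every real embedding
`σ` of `F` either a real embedding of `M` extends `σ` or `σ f` has exactly one real zero.

**Theorem.** Let `W ≥ 1`, let `𝒮` be a finite set of nonzero integers of `F` and `ε > 0`. There are a FINITE set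
`𝒟` of squarefree natural numbers `D ≡ 1 mod 8 W`, with `1 ∈ 𝒟`, a multiple `R` of `2 W` and of all `D ∈ 𝒟`, a set `U`
which contains for all large `B` ALL the `f` of height at most `B` with the exception of a proportion `ε` at most, and
numbers `D(f, d) ∈ 𝒟` for `f ∈ U`, `d ∈ 𝒮`, with the following property. Let `f_1, ..., f_r ∈ U` and
`d_1, ..., d_r ∈ 𝒮` be ANY elements such that the curves `y ^ 2 = f_i ^ (d_i) (x)` are regular at the primes over two (a
condition on `f_i ^ (d_i)` modulo the squares of the primes over two, which holds for all the polynomials in a residue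
class modulo `4`), let `C_i = C_(f_i) ^ (d_i D(f_i, d_i))`, and let `M` be ANY field which belongs to all the classes
`C(f_i ^ (d_i), R)` (for example `M = F`). Let `X` be ANY projective variety over `M` with ANY morphism to the
product `C_1 × ... × C_r`, for example any curve of any genus.

(1) All the points of `X` over `M` are above the point `(∞, ..., ∞)`.

(2) If an adelic point of `X` lifts to adelic points of the pull-backs to `X` of products of `2 ^ n`-coverings of
`C_1, ..., C_r` for all `n`, then all its components at the primes `w` of `M` over `2` are above `(∞, ..., ∞)` (in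
particular `X` has points over the completions at the `w` above `(∞, ..., ∞)`).

(3) If for some prime `w` of `M` over `2` there is no point of `X` over the completion of `M` at `w` above
`(∞, ..., ∞)`, then `X` has no point over `M`, and there is an `n ≥ 1` such that no adelic point of `X` lifts to an
adelic point of the pull-back of a product of `2 ^ n`-coverings of the curves. The level `n` is explicit: it is
sufficient that there is no point of `X` over the completion above the neighbourhood `|x_i| ≥ |2| ^ (- 2 n)` of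
`(∞, ..., ∞)`.

For a curve `X` the adelic points which are orthogonal to the Brauer group of `X` survive the coverings which are
pull-backs of `n`-coverings of the curves `C_i` (Stoll, Skorobogatov; this is not part of the theorem; components at
infinity are considered for the real places). So (2) says that the images in `C_i(M_w)`, `w | 2`, of the elements of
`X(𝔸)^Br` are the image `∞` of the point which is predicted by the conjecture, and (3) is the conjecture for all the `X`
with the condition at `w`: both sides are empty, at a finite level, WITHOUT the finiteness of the Tate-Shafarevich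
groups.

What was known: (3) for a positive proportion of the `f` (`MP_d37f77_nt.CoversOfHyperellipticCurves`, for other classes
of fields), and for `X = C_f ^ (d D)` the case `r = 1` of (1), (2) (`MP_308fa9_nt.AlmostAllCurves`); for products of
cubic twists of one CM curve see `MP_ab3ecb_nt.ProductsOfCubicTwists` (helper438). New: ALL the varieties over the
products of bounded twists of almost all curves in the regular residue classes, of every genus, over every number field
and all the fields of the classes.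

Proof. By project AG (almost all `f` have a twist by a bounded `D` with zero 2-Selmer group over all the `M`; with
parts by helpers 30, 47, 71, 80, 102, 118, 139, 152, 166, 231, 234, 236, 294, 295, 307, 322, 348, 372, 383, 650, 686
and 945, on top of the library and of helper459's modules) an adelic point of `C_i` survives the `2 ^ n`-coverings if
and only if the classes of its components are divisible by `2 ^ n`, and at the regular primes over two the divisible
classes are those of the points near infinity (`H458/BM`).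
-/

set_option autoImplicit false
set_option linter.all false

namespace Pool.Agent.Results.MP_ab3ecb_nt.CoversOfAlmostAllCurves

open Polynomial Filter IsDedekindDomain NumberField
open Pool.Agent.N874.Jac (J UniquelyTwoDivisible ShaTwoTrivialReal)
open Pool.Agent.H458.BM (Point AdelicPoint Survives ClassesArePowers NearBy MFamily)
open scoped Classical

section defs

variable {F : Type} [Field F] [NumberField F]

/-- `f` is a monic polynomial of degree `2 g + 1` with integral coefficients, without term of degree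
`2 g`. -/
structure IsOdd (g : ℕ) (f : (𝓞 F)[X]) : Prop where
  monic : f.Monic
  degree : f.natDegree = 2 * g + 1
  trace : f.coeff (2 * g) = 0

variable (F) in
/-- The polynomials `f` of height at most `B`: all conjugates of the coefficient of degree `j` are at most
`B ^ (2 g + 1 - j)` in absolute value. -/
def Polys (g B : ℕ) : Set (𝓞 F)[X] :=
  {f | IsOdd g f ∧ ∀ j ≤ 2 * g, ∀ σ : F →+* ℂ, ‖σ (f.coeff j : F)‖ ≤ (B : ℝ) ^ (2 * g + 1 - j)}

/-- `f` is irreducible modulo `v`. -/
def IrreducibleMod (f : (𝓞 F)[X]) (v : HeightOneSpectrum (𝓞 F)) : Prop :=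
  Irreducible (f.map (Ideal.Quotient.mk v.asIdeal))

/-- `d ^ (2 g + 1) f(x / d)`: the coefficient of degree `j` is multiplied by `d ^ (2 g + 1 - j)`. The curve
`y ^ 2 = twist f d` is the quadratic twist by `d` of the curve `y ^ 2 = f(x)`. -/
noncomputable def twist (f : (𝓞 F)[X]) (d : 𝓞 F) : (𝓞 F)[X] := f.scaleRoots d

/-- `M / F` is unramified at `v`. -/
def Unramified (v : HeightOneSpectrum (𝓞 F)) (M : Type) [Field M] [NumberField M]
    [Algebra F M] : Prop :=
  ∀ w : HeightOneSpectrum (𝓞 M), v.asIdeal.map (algebraMap (𝓞 F) (𝓞 M)) ≤ w.asIdeal →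
    ¬ v.asIdeal.map (algebraMap (𝓞 F) (𝓞 M)) ≤ w.asIdeal ^ 2

/-- `v` splits completely in `M`: it is unramified and all integers of `M` are congruent to integers of
`F` modulo every prime over `v`. -/
def SplitsCompletely (v : HeightOneSpectrum (𝓞 F)) (M : Type) [Field M] [NumberField M]
    [Algebra F M] : Prop :=
  Unramified v M ∧
  ∀ w : HeightOneSpectrum (𝓞 M), v.asIdeal.map (algebraMap (𝓞 F) (𝓞 M)) ≤ w.asIdeal →
    ∀ y : 𝓞 M, ∃ c : 𝓞 F, y - algebraMap (𝓞 F) (𝓞 M) c ∈ w.asIdeal

/-- The extension `M / F` belongs to the class `C(f, R)` of the number `R` and the polynomial `f`. -/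
structure InClass (R : ℕ) (f : (𝓞 F)[X]) (M : Type) [Field M] [NumberField M] [Algebra F M] : Prop where
  galois : IsGalois F M
  degree : ∃ n : ℕ, Module.finrank F M = 2 ^ n
  split : ∀ v : HeightOneSpectrum (𝓞 F), (R : 𝓞 F) ∈ v.asIdeal → SplitsCompletely v M
  ramified : ∀ v : HeightOneSpectrum (𝓞 F), Unramified v M ∨ IrreducibleMod f v
  real : ∀ σ : F →+* ℝ, (∃ ρ : M →+* ℝ, ρ.comp (algebraMap F M) = σ) ∨
    ∃! e : ℝ, (f.map (σ.comp (algebraMap (𝓞 F) F))).eval e = 0

/-- The polynomial `f` over the extension `M` of `F`. -/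
noncomputable def polyOver (M : Type) [Field M] [Algebra F M] (f : (𝓞 F)[X]) : M[X] :=
  (f.map (algebraMap (𝓞 F) F)).map (algebraMap F M)

/-- `y ^ 2 = f(x)` is regular at the points over all the primes `v` over two: `f` is congruent to
`E ^ 2 + x G ^ 2 + π r` modulo `v ^ 2`, where `π` is a uniformizer and `r` and `G` are coprime modulo `v`. -/
def RegularAtTwo (f : (𝓞 F)[X]) : Prop :=
  ∀ v : HeightOneSpectrum (𝓞 F), (2 : 𝓞 F) ∈ v.asIdeal →
    ∃ (π : 𝓞 F) (E G r a b : (𝓞 F)[X]), π ∈ v.asIdeal ∧ π ∉ v.asIdeal ^ 2 ∧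
      (∀ j, (f - (E ^ 2 + X * G ^ 2 + C π * r)).coeff j ∈ v.asIdeal ^ 2) ∧
      ∀ j, (a * r + b * G - 1).coeff j ∈ v.asIdeal

/-- The point `z` of the curve over the completion of `M` at `w` is the point at infinity or an affine point
`(x, y)` with `|x| ≥ |2| ^ (- 2 n)`. -/
def NearInfinity {M : Type} [Field M] [NumberField M] {P : M[X]} {w : HeightOneSpectrum (𝓞 M)} (n : ℕ)
    (z : Point P (w.adicCompletion M)) : Prop := NearBy Valued.v n z

/-- There is a point of `X` over the completion of `M` at `w` above the point `(∞, ..., ∞)`. -/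
def PointAtInfinity {M : Type} [Field M] [NumberField M] {g m r : ℕ} (X : MFamily M g m r)
    (P : Fin r → M[X]) (w : HeightOneSpectrum (𝓞 M)) : Prop :=
  X.Lies (E := w.adicCompletion M) fun i => (none : Point (P i) (w.adicCompletion M))

/-- There is no point of `X` over the completion of `M` at `w` above a point all whose components are near
infinity of level `n`. -/
def NoPointNearInfinity {M : Type} [Field M] [NumberField M] {g m r : ℕ} (X : MFamily M g m r)
    (P : Fin r → M[X]) (w : HeightOneSpectrum (𝓞 M)) (n : ℕ) : Prop :=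
  ∀ z : ∀ i, Point (P i) (w.adicCompletion M), X.Lies z → ¬ ∀ i, NearInfinity n (z i)

/-- Rational points, surviving adelic points and finite descent on all the projective varieties `X` over `M` with
morphisms to the curves `y ^ 2 = P_i(x)`. -/
structure Stoll (g : ℕ) (M : Type) [Field M] [NumberField M] {r : ℕ} (P : Fin r → M[X]) : Prop where
  /-- all rational points of `X` are above `(∞, ..., ∞)` -/
  rational : ∀ (m : ℕ) (X : MFamily M g m r) (z : ∀ i, Point (P i) M), X.Lies z → ∀ i, z i = none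
  /-- the components at the primes `w` over two of the surviving adelic points of `X` are above `(∞, ..., ∞)` -/
  adelic : ∀ (m : ℕ) (X : MFamily M g m r) (z : ∀ i, AdelicPoint (P i) (𝓞 M)), X.LiesAdelic z →
    (∀ n i, Survives (2 ^ n) (z i)) → ∀ w : HeightOneSpectrum (𝓞 M), (2 : 𝓞 M) ∈ w.asIdeal →
      (∀ i, (z i).finite w = none) ∧ PointAtInfinity X P w
  /-- no point of `X` over the completion at `w` above `(∞, ..., ∞)`: a finite level shows `X(M) = ∅` -/
  finite : ∀ (m : ℕ) (X : MFamily M g m r) (w : HeightOneSpectrum (𝓞 M)), (2 : 𝓞 M) ∈ w.asIdeal →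
    ¬ PointAtInfinity X P w → (∀ z : ∀ i, Point (P i) M, ¬ X.Lies z) ∧
      ∃ n : ℕ, 1 ≤ n ∧ X.EmptySelmerSet P (𝓞 M) (2 ^ n)
  /-- the level -/
  level : ∀ (m : ℕ) (X : MFamily M g m r) (w : HeightOneSpectrum (𝓞 M)) (n : ℕ), (2 : 𝓞 M) ∈ w.asIdeal →
    1 ≤ n → NoPointNearInfinity X P w n → X.EmptySelmerSet P (𝓞 M) (2 ^ n)

/-- The theorem for all the finite families of twists `f_i ^ (d_i D_i)`, `D_i = D(f_i, d_i)`, of polynomials `f_i` in
`U` such that `f_i ^ d_i` is regular at two, over all the fields `M` in all the classes `C(f_i ^ d_i, R)`. -/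
def StollFor (g R : ℕ) (𝒮 : Finset (𝓞 F)) (U : Set (𝓞 F)[X]) (D : (𝓞 F)[X] → 𝓞 F → ℕ) : Prop :=
  ∀ (r : ℕ) (f : Fin r → (𝓞 F)[X]) (d : Fin r → 𝓞 F),
    (∀ i, f i ∈ U ∧ d i ∈ 𝒮 ∧ RegularAtTwo (twist (f i) (d i))) →
    ∀ (M : Type) [Field M] [NumberField M] [Algebra F M], (∀ i, InClass R (twist (f i) (d i)) M) →
      Stoll g M fun i => polyOver M (twist (f i) (d i * (D (f i) (d i) : 𝓞 F)))

end defs

section pf

variable {F : Type} [Field F] [NumberField F]

open Pool.Agent.H459.UF (Unr Deg1 below exists_above)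

theorem cls_of {M : Type} [Field M] [NumberField M] [Algebra F M] {R : ℕ} {f : (𝓞 F)[X]}
    (h : InClass R f M) : Pool.Agent.H458.AG.ClsM F M R f where
  spl := fun v hv => ⟨Pool.Agent.H458.AG.Gen.unr_of (h.split v hv).1, (h.split v hv).2⟩
  unr := fun v => (h.ramified v).imp Pool.Agent.H458.AG.Gen.unr_of id
  real := fun σ => (h.real σ).imp id fun h' => by
    unfold Pool.Agent.N783.PF.fF
    rw [Polynomial.map_map]
    exact h'

/-- `M = F` belongs to all the classes. -/
theorem self_mem (R : ℕ) (f : (𝓞 F)[X]) : InClass R f F := by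
  have h2 := Pool.Agent.H458.AG.Gen.cls_base (F := F) R f
  exact ⟨inferInstance, ⟨0, by rw [Module.finrank_self, pow_zero]⟩,
    fun v hv => ⟨Pool.Agent.H458.AG.Gen.of_unr (h2.spl v hv).1, (h2.spl v hv).2⟩,
    fun v => Or.inl (Pool.Agent.H458.AG.Gen.of_unr (Pool.Agent.H458.AU.unr_self v)),
    fun σ => Or.inl ⟨σ, by
    ext x
    rfl⟩⟩

/-- The embedding in the completion at a prime which splits completely. -/
theorem embed {M : Type} [Field M] [NumberField M] [Algebra F M] {v : HeightOneSpectrum (𝓞 F)}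
    (h : SplitsCompletely v M) : Nonempty (M →ₐ[F] v.adicCompletion F) := by
  obtain ⟨w, hw⟩ := exists_above (K := F) M v
  subst hw
  obtain ⟨j, hj⟩ := Pool.Agent.H459.UF.cpl_surj (Pool.Agent.H459.UF.dns_of_deg1
    (K := F) (P := w) (Pool.Agent.H458.AG.Gen.unr_of h.1) h.2)
  refine ⟨{ (j.comp (algebraMap M (w.adicCompletion M))) with commutes' := fun r => hj r }⟩

/-- The data at a prime over two. -/
theorem at_two {R : ℕ} (h2R : 2 ∣ R) {f : (𝓞 F)[X]} {M : Type} [Field M]
    [NumberField M] [Algebra F M] (hM : InClass R f M) (w : HeightOneSpectrum (𝓞 M))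
    (hw : (2 : 𝓞 M) ∈ w.asIdeal) : ∃ v : HeightOneSpectrum (𝓞 F), (2 : 𝓞 F) ∈ v.asIdeal ∧
      ∀ x : F, w.valuation M (algebraMap F M x) = v.valuation F x := by
  obtain ⟨v, hv⟩ := Pool.Agent.N874.TF.exists_bel F w
  have h2 : (2 : 𝓞 F) ∈ v.asIdeal := by
    rw [hv, map_ofNat]
    exact hw
  have hR : (R : 𝓞 F) ∈ v.asIdeal := by
    obtain ⟨m, hm⟩ := h2R
    rw [hm, Nat.cast_mul]
    exact Ideal.mul_mem_right _ _ (by exact_mod_cast h2)
  exact ⟨v, h2, Pool.Agent.N874.TF.unr_of (hM.split v hR).1 w fun a ha => (hv a).1 ha⟩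

/-- Regularity is the same for the twist by `D ≡ 1 mod 8`. -/
theorem reg_twist {f : (𝓞 F)[X]} {D W : ℕ} (hD : D ≡ 1 [MOD 8 * W]) (hf : RegularAtTwo f)
    (v : HeightOneSpectrum (𝓞 F)) (hv : (2 : 𝓞 F) ∈ v.asIdeal) :
    Pool.Agent.H458.PD.RegAt v (f.scaleRoots (D : 𝓞 F)) := by
  have h0 : Pool.Agent.H458.PD.RegAt v f := hf v hv
  refine h0.congr fun j => ?_
  rw [coeff_scaleRoots]
  have h8 : D ≡ 1 [MOD 8] := hD.of_dvd (dvd_mul_right 8 W)
  have h9 : D ^ (f.natDegree - j) ≡ 1 [MOD 8] := by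
    have := h8.pow (f.natDegree - j)
    rwa [one_pow] at this
  obtain ⟨k, hk⟩ : (8 : ℤ) ∣ ((D ^ (f.natDegree - j) : ℕ) : ℤ) - 1 := by
    have := (Nat.modEq_iff_dvd.1 h9.symm)
    exact_mod_cast this
  have e1 : (D : 𝓞 F) ^ (f.natDegree - j) = 8 * (k : 𝓞 F) + 1 := by
    have h10 : (((D ^ (f.natDegree - j) : ℕ) : ℤ) : 𝓞 F) = ((8 * k + 1 : ℤ) : 𝓞 F) := by
      rw [← hk]
      ring_nf
    push_cast at h10
    exact h10
  have e2 : f.coeff j * (D : 𝓞 F) ^ (f.natDegree - j) - f.coeff j = (2 * 2) * (2 * (k : 𝓞 F) * f.coeff j) := by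
    rw [e1]
    ring
  rw [e2, pow_two]
  exact Ideal.mul_mem_right _ _ (Ideal.mul_mem_mul hv hv)

/-- The properties of the polynomials which are used. -/
structure Use (g R : ℕ) (f₀ f : (𝓞 F)[X]) : Prop where
  monic : f.Monic
  degree : f.natDegree = 2 * g + 1
  irr : Irreducible (Pool.Agent.N783.PF.fF f)
  sel : ∀ (M : Type) [Field M] [NumberField M] [Algebra F M], InClass R f₀ M →
    UniquelyTwoDivisible (polyOver M f) ∧ ShaTwoTrivialReal (polyOver M f) (𝓞 M)
  reg : ∀ v : HeightOneSpectrum (𝓞 F), (2 : 𝓞 F) ∈ v.asIdeal → Pool.Agent.H458.PD.RegAt v f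

theorem use_of {g : ℕ} (hg : 1 ≤ g) {R : ℕ} (h2R : 2 ∣ R) {f₀ f : (𝓞 F)[X]}
    (h : Use g R f₀ f) (M : Type) [Field M] [NumberField M] [Algebra F M] (hM : InClass R f₀ M) :
    (∀ x y : M, y ^ 2 ≠ (polyOver M f).eval x) ∧
    ∀ (n : ℕ) (z : AdelicPoint (polyOver M f) (𝓞 M)),
      Survives (2 ^ n) z ↔ ClassesArePowers (2 ^ n) z := by
  obtain ⟨v₀, hv₀⟩ := Pool.Agent.H458.PD.exists_two F
  have hR0 : (R : 𝓞 F) ∈ v₀.asIdeal := by
    obtain ⟨m, hm⟩ := h2R
    rw [hm, Nat.cast_mul]
    exact Ideal.mul_mem_right _ _ (by exact_mod_cast hv₀)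
  obtain ⟨σ⟩ := embed (hM.split v₀ hR0)
  obtain ⟨hdiv, hsha⟩ := h.sel M hM
  obtain ⟨-, -, hJ, hC⟩ := Pool.Agent.H458.PD.glo_ring σ hv₀ (h.reg v₀ hv₀) h.monic h.degree
    h.irr.separable (P := polyOver M f) rfl hdiv
  have hPm : (polyOver M f).Monic := (h.monic.map _).map _
  have hPs : (polyOver M f).Separable := h.irr.separable.map
  have hPd : (polyOver M f).natDegree = 2 * g + 1 := by
    unfold polyOver
    rw [(h.monic.map _).natDegree_map, h.monic.natDegree_map, h.degree]
  have hPo : Odd (polyOver M f).natDegree := by rw [hPd]; exact odd_two_mul_add_one g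
  exact ⟨hC hg, fun n z => Pool.Agent.H458.BM.survives_iff two_ne_zero hPm hPs hPo hJ hsha n z⟩

theorem rat_none {g : ℕ} (hg : 1 ≤ g) {R : ℕ} (h2R : 2 ∣ R) {f₀ f : (𝓞 F)[X]}
    (h : Use g R f₀ f) (M : Type) [Field M] [NumberField M] [Algebra F M] (hM : InClass R f₀ M)
    (z : Point (polyOver M f) M) : z = none := by
  cases z with
  | none => rfl
  | some p =>
    exfalso
    have h1 := (use_of hg h2R h M hM).1 p.1.1 p.1.2
    apply h1
    have h2 := p.2
    have hid : (polyOver M f).map (algebraMap M M) = polyOver M f := Polynomial.map_id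
    exact h2.trans (congrArg (fun q : M[X] => q.eval p.1.1) hid)

theorem stoll_of {g : ℕ} (hg : 1 ≤ g) {R : ℕ} (h2R : 2 ∣ R) {r : ℕ}
    {q₀ q : Fin r → (𝓞 F)[X]} (h : ∀ i, Use g R (q₀ i) (q i)) (M : Type) [Field M] [NumberField M]
    [Algebra F M] (hM : ∀ i, InClass R (q₀ i) M) : Stoll g M fun i => polyOver M (q i) := by
  have hval : ∀ w : HeightOneSpectrum (𝓞 M), (2 : 𝓞 M) ∈ w.asIdeal → 0 < r →
      ∃ v : HeightOneSpectrum (𝓞 F), (2 : 𝓞 F) ∈ v.asIdeal ∧
        ∀ x : F, w.valuation M (algebraMap F M x) = v.valuation F x := by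
    intro w hw hr
    exact at_two h2R (hM ⟨0, hr⟩) w hw
  have hrat : ∀ (m : ℕ) (X : MFamily M g m r) (z : ∀ i, Point (polyOver M (q i)) M), X.Lies z →
      ∀ i, z i = none := fun m X z _ i => rat_none hg h2R (h i) M (hM i) (z i)
  refine ⟨hrat, fun m X z hz hs w hw => ?_, fun m X w hw hX => ⟨fun z hz => ?_, ?_⟩,
    fun m X w n hw hn hX z hz hs => ?_⟩
  · have h1 : ∀ i, (z i).finite w = none := by
      intro i
      obtain ⟨v, hv, hvw⟩ := at_two h2R (hM i) w hw
      exact Pool.Agent.H458.BM.point_inf (h i).monic hg (h i).degree rfl hv ((h i).reg v hv) hvw _ fun n =>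
        (((use_of hg h2R (h i) M (hM i)).2 n (z i)).1 (hs n i)).1 w
    refine ⟨h1, ?_⟩
    have h2 := hz.1 w
    have h3 : (fun i => (z i).finite w) =
        fun i => (none : Point (polyOver M (q i)) (w.adicCompletion M)) := funext h1
    rw [h3] at h2
    exact h2
  · apply hX
    have hz0 := hrat m X z hz
    obtain ⟨t, ht0, ht⟩ := hz
    refine ⟨fun i => algebraMap M (w.adicCompletion M) (t i), ?_, fun G hG => ?_⟩
    · intro h0
      apply ht0
      funext i
      exact (map_eq_zero _).1 (congrFun h0 i)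
    · have h3 := ht G hG
      have e : (Sum.elim (fun i => algebraMap M (w.adicCompletion M) (t i)) fun s : Fin r × Fin 3 =>
          Pool.Agent.H458.BM.wcoords (none : Point (polyOver M (q s.1)) (w.adicCompletion M)) s.2) =
          fun s => algebraMap M (w.adicCompletion M)
            ((Sum.elim t fun s : Fin r × Fin 3 => Pool.Agent.H458.BM.wcoords (z s.1) s.2) s) := by
        funext s
        rcases s with i | ⟨i, k⟩
        · rfl
        · simp only [Sum.elim_inr]
          rw [hz0 i]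
          fin_cases k <;> simp [Pool.Agent.H458.BM.wcoords]
      rw [e]
      have h4 := (MvPolynomial.aeval_algebraMap_apply (w.adicCompletion M)
        (Sum.elim t fun s : Fin r × Fin 3 => Pool.Agent.H458.BM.wcoords (z s.1) s.2) G)
      rw [h3, _root_.map_zero] at h4
      exact h4
  · rcases Nat.eq_zero_or_pos r with hr | hr
    · subst hr
      refine ⟨1, le_refl _, fun z hz _ => hX ?_⟩
      obtain ⟨t, ht0, ht⟩ := hz.1 w
      refine ⟨t, ht0, fun G hG => ?_⟩
      have h3 := ht G hG
      convert h3 using 3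
      funext s
      rcases s with i | s
      · rfl
      · exact s.1.elim0
    · obtain ⟨v, hv, hvw⟩ := hval w hw hr
      obtain ⟨n, hn, h1⟩ := Pool.Agent.H458.BM.mfamily_bound (fun i => (h i).monic) hg
        (fun i => (h i).degree) (fun i => rfl) hv (fun i => (h i).reg v hv) hvw X hX
      refine ⟨n, hn, fun z hz hs => h1 (fun i => (z i).finite w) (hz.1 w) fun i => ?_⟩
      exact (((use_of hg h2R (h i) M (hM i)).2 n (z i)).1 (hs i)).1 w
  · refine hX (fun i => (z i).finite w) (hz.1 w) fun i => ?_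
    obtain ⟨v, hv, hvw⟩ := at_two h2R (hM i) w hw
    have h3 := (((use_of hg h2R (h i) M (hM i)).2 n (z i)).1 (hs i)).1 w
    generalize (z i).finite w = q' at h3 ⊢
    cases q' with
    | none => trivial
    | some p =>
      exact Pool.Agent.H458.BM.point_bound (P := polyOver M (q i)) (h i).monic hg (h i).degree rfl hv
        ((h i).reg v hv) hvw p hn h3

theorem use_ex {g R W : ℕ} {𝒟 : Finset ℕ} {𝒮 : Finset (𝓞 F)}
    (h𝒮 : ∀ d ∈ 𝒮, d ≠ 0) (hD0 : ∀ D ∈ 𝒟, Squarefree D ∧ D ≡ 1 [MOD 8 * W]) {f : (𝓞 F)[X]}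
    (hf : f ∈ Pool.Agent.H458.AG.Gen.VV F g R 𝒟 𝒮) {d : 𝓞 F} (hd : d ∈ 𝒮) :
    ∃ D ∈ 𝒟, RegularAtTwo (twist f d) → Use g R (twist f d) (twist f (d * (D : 𝓞 F))) := by
  obtain ⟨D, hD, hm, hdeg, hirr, h⟩ := Pool.Agent.H458.AG.Gen.triv_of h𝒮 (fun D hD => (hD0 D hD).1) hf hd
  refine ⟨D, hD, fun hreg => ⟨hm, hdeg, hirr, fun M _ _ _ hM => ?_, fun v hv => ?_⟩⟩
  · haveI := hM.galois
    obtain ⟨n, hn⟩ := hM.degree
    exact h M n hn (cls_of hM)
  · have h3 := reg_twist (hD0 D hD).2 hreg v hv
    unfold twist at h3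
    rwa [← scaleRoots_mul] at h3

end pf

/-- **Stoll's conjecture on the varieties with morphisms to bounded twists of almost all hyperelliptic curves.** For
every number field `F`, every `g ≥ 1`, `W ≥ 1`, every finite set `𝒮` of nonzero integers of `F` and `ε > 0` there are a
finite set `𝒟` of squarefree natural numbers `D ≡ 1 mod 8 W`, a multiple `R` of `2 W` and of all `D ∈ 𝒟`, a set `U` of
polynomials which contains for all large `B` at least `(1 - ε)` times the number of ALL the `f` of height at most `B`,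
and numbers `D(f, d) ∈ 𝒟` such that for all `f_1, ..., f_r ∈ U`, `d_1, ..., d_r ∈ 𝒮` with `f_i ^ (d_i)` regular at two,
all the `M` in the classes `C(f_i ^ (d_i), R)` and ALL the projective varieties `X` over `M` with a morphism to the
product of the twists `C_i` of `y ^ 2 = f_i(x)` by `d_i D(f_i, d_i)`: the points of `X` over `M` are above
`(∞, ..., ∞)`; the components at the primes over two of the adelic points of `X` which survive all the `2 ^ n`-coverings
of the `C_i` are above `(∞, ..., ∞)`; and if `X` has no point above `(∞, ..., ∞)` over one of these completions, then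
`X(M)` is empty and no adelic point of `X` survives the `2 ^ n`-coverings for some explicit `n`. -/
theorem result (F : Type) [Field F] [NumberField F] (g : ℕ) (hg : 1 ≤ g) (W : ℕ) (hW : 0 < W)
    (𝒮 : Finset (𝓞 F)) (h𝒮 : ∀ d ∈ 𝒮, d ≠ 0) (ε : ℝ) (hε : 0 < ε) :
    (∀ B : ℕ, (Polys F g B).Finite) ∧
    (∃ f₂ : (𝓞 F)[X], IsOdd g f₂ ∧ ∀ f : (𝓞 F)[X], (∀ j, (4 : 𝓞 F) ∣ f.coeff j - f₂.coeff j) →
      RegularAtTwo f) ∧
    ∃ (R : ℕ) (𝒟 : Finset ℕ) (U : Set (𝓞 F)[X]) (D : (𝓞 F)[X] → 𝓞 F → ℕ), 0 < R ∧ 2 * W ∣ R ∧ 1 ∈ 𝒟 ∧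
      (∀ D ∈ 𝒟, Squarefree D ∧ D ≡ 1 [MOD 8 * W] ∧ D ∣ R) ∧
      (∀ f : (𝓞 F)[X], InClass R f F) ∧
      (∀ f ∈ U, ∀ d ∈ 𝒮, D f d ∈ 𝒟) ∧ StollFor g R 𝒮 U D ∧
      ∀ᶠ B : ℕ in atTop, 0 < (Polys F g B).ncard ∧
        (1 - ε) * ((Polys F g B).ncard : ℝ) ≤ ({f ∈ Polys F g B | f ∈ U}.ncard : ℝ) := by
  have heq : ∀ B, Polys F g B = {f : (𝓞 F)[X] | Pool.Agent.N783.PF.Ht g B f} := by
    intro B
    ext f
    exact ⟨fun h => ⟨h.1.monic, h.1.degree, h.1.trace, fun j hj σ => h.2 j hj σ⟩,
      fun h => ⟨⟨h.mon, h.deg, h.tr⟩, fun j hj σ => h.ht j hj σ⟩⟩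
  obtain ⟨hfin, R, 𝒟, hR, hWR, h1, hD, hX⟩ := Pool.Agent.H458.AG.Gen.part F W hW 𝒮 h𝒮 ε hε g hg
  have hfin' : ∀ B : ℕ, (Polys F g B).Finite := fun B => by
    rw [heq]
    exact hfin B
  obtain ⟨f₂, hf₂m, hf₂d, hf₂t, hf₂i, hf₂r⟩ := Pool.Agent.H458.BM.ex5 F g hg
  have hU : ∀ (f : (𝓞 F)[X]) (d : 𝓞 F), ∃ D : ℕ, f ∈ Pool.Agent.H458.AG.Gen.VV F g R 𝒟 𝒮 → d ∈ 𝒮 →
      D ∈ 𝒟 ∧ (RegularAtTwo (twist f d) → Use g R (twist f d) (twist f (d * (D : 𝓞 F)))) := by
    intro f d
    by_cases hf : f ∈ Pool.Agent.H458.AG.Gen.VV F g R 𝒟 𝒮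
    · by_cases hd : d ∈ 𝒮
      · obtain ⟨D, hD1, hD2⟩ := use_ex h𝒮 (fun D hD' => ⟨(hD D hD').1, (hD D hD').2.1⟩) hf hd
        exact ⟨D, fun _ _ => ⟨hD1, hD2⟩⟩
      · exact ⟨0, fun _ h => absurd h hd⟩
    · exact ⟨0, fun h => absurd h hf⟩
  choose D hDU using hU
  refine ⟨hfin', ⟨f₂, ⟨hf₂m, hf₂d, hf₂t⟩, fun f hf v hv => ?_⟩, R, 𝒟,
    Pool.Agent.H458.AG.Gen.VV F g R 𝒟 𝒮, D, hR, hWR, h1, hD, self_mem R,
    fun f hf d hd => (hDU f d hf hd).1, ?_, ?_⟩
  · have h5 : Pool.Agent.H458.PD.RegAt v f := by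
      refine (hf₂r v hv).congr fun j => ?_
      obtain ⟨c, hc⟩ := hf j
      rw [hc, show (4 : 𝓞 F) = 2 * 2 by norm_num, pow_two]
      exact Ideal.mul_mem_right _ _ (Ideal.mul_mem_mul hv hv)
    exact h5
  · intro r f d hfd M _ _ _ hM
    exact stoll_of hg (dvd_of_mul_right_dvd hWR) (q₀ := fun i => twist (f i) (d i))
      (q := fun i => twist (f i) (d i * (D (f i) (d i) : 𝓞 F)))
      (fun i => (hDU (f i) (d i) (hfd i).1 (hfd i).2.1).2 (hfd i).2.2) M hM
  filter_upwards [hX] with B hB
  obtain ⟨h2, h3⟩ := hB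
  rw [← heq] at h2 h3
  refine ⟨h2, h3.trans ?_⟩
  have h4 : Pool.Agent.H458.AG.Gen.VV F g R 𝒟 𝒮 ∩ Polys F g B =
      {f ∈ Polys F g B | f ∈ Pool.Agent.H458.AG.Gen.VV F g R 𝒟 𝒮} := by
    ext f
    exact ⟨fun h => ⟨h.2, h.1⟩, fun h => ⟨h.2, h.1⟩⟩
  rw [h4]

end Pool.Agent.Results.MP_ab3ecb_nt.CoversOfAlmostAllCurves
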