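import Pool.Agent.H912.AE.Fn
import Pool.Agent.H912.AE.Nf3

/-!
# Most curves over most number fields, after a power map, have no adelic points

Let `(X_c)` be an arbitrary family of closed subsets of `ℙ^n` over `ℚ` with the parameters
`c = (c_1, ..., c_R)`, for instance the family of all plane curves of given degree.  We consider the
number fields `K = ℚ(θ)` of degree `D`, where `θ` is a root of a monic polynomial
`f_a = t^D + a_{D-1} t^{D-1} + ... + a_0` with integral coefficients, the members `X_{c(θ)}` of the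
family over `K` with the parameters `c_l(θ) = ∑ c_{l,j} θ^j` in `ℤ[θ]`, and their pull-backs
`X_{c(θ),m} = {x : (x_0^m : ... : x_n^m) ∈ X_{c(θ)}}`.  If the base locus of the family has no
trivial point, then `100%` of all the `X_{c(θ),m}`, counted by `m`, `a` and `c`, have no
`K_v`-point for a place `v` of degree one above a bounded prime `q`, that is, for a root `z` of
`f_a` in `ℚ_q`.
-/

set_option autoImplicit false

open Filter Topology

namespace Pool.Agent.Results.MP_ab3ecb_nt.MostCurvesOverMostFields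

variable {R n D : ℕ}

/-- The polynomials in `S` define a family of closed subsets `X_c` of `ℙ^n` with the parameters
`c = (c_1, ..., c_R)`: they are forms in the last `n + 1` of their `R + (n + 1)` variables. -/
def IsFamily (S : Set (MvPolynomial (Fin (R + (n + 1))) ℚ)) : Prop :=
  ∀ F ∈ S, ∃ d, ∀ α ∈ F.support, ∑ j : Fin (n + 1), α (Fin.natAdd R j) = d

/-- `x` is a vector of homogeneous coordinates of a point over `K` of
`X_{c,m} = {x : F(c; x_0^m, ..., x_n^m) = 0 for all F in S}`, for parameters `c` in `K`. -/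
def IsPt (S : Set (MvPolynomial (Fin (R + (n + 1))) ℚ)) {K : Type} [Field K] [Algebra ℚ K]
    (c : Fin R → K) (m : ℕ) (x : Fin (n + 1) → K) : Prop :=
  x ≠ 0 ∧ ∀ F ∈ S, MvPolynomial.aeval (Fin.append c (fun j => x j ^ m)) F = 0

/-- The polynomial `f_a = t^D + a_{D-1} t^{D-1} + ... + a_0` over the field `K`. -/
noncomputable def poly (K : Type) [Field K] (a : Fin D → ℤ) : Polynomial K :=
  Polynomial.X ^ D + ∑ i, Polynomial.C ((a i : ℤ) : K) * Polynomial.X ^ (i : ℕ)

/-- The parameters `c_l(z) = ∑ c_{l,j} z^j`. -/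
noncomputable def param {K : Type} [Field K] (z : K) (c : Fin R × Fin D → ℤ) : Fin R → K :=
  fun l => ∑ j, ((c (l, j) : ℤ) : K) * z ^ (j : ℕ)

/-- For every root `z` of `f_a` in `ℚ_q`, the variety `X_{c(z),m}` has a `ℚ_q`-point.  If
`K = ℚ(θ)`, where `f_a` is the minimal polynomial of `θ`, then the roots `z` correspond to the
places `v` of `K` above `q` with `K_v = ℚ_q`, and the condition says that `X_{c(θ),m}` has a
`K_v`-point for these `v`. -/
def LocSol (S : Set (MvPolynomial (Fin (R + (n + 1))) ℚ)) (m : ℕ) (a : Fin D → ℤ)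
    (c : Fin R × Fin D → ℤ) (q : ℕ) [Fact q.Prime] : Prop :=
  ∀ z : ℚ_[q], (poly ℚ_[q] a).eval z = 0 → ∃ x : Fin (n + 1) → ℚ_[q], IsPt S (param z c) m x

/-- The polynomial `f_a` is the minimal polynomial of an element `θ` such that
`X_{c(θ),m}` has a point over `K = ℚ(θ)`. -/
def GlobSol (S : Set (MvPolynomial (Fin (R + (n + 1))) ℚ)) (m : ℕ) (a : Fin D → ℤ)
    (c : Fin R × Fin D → ℤ) : Prop :=
  ∃ (K : Type) (_ : Field K) (_ : Algebra ℚ K) (θ : K), IsIntegral ℚ θ ∧
    minpoly ℚ θ = poly ℚ a ∧ IntermediateField.adjoin ℚ {θ} = ⊤ ∧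
      ∃ x : Fin (n + 1) → K, IsPt S (param θ c) m x

/-- All members `X_{c,m}` of the family have a common rational point with coordinates in
`{0, 1, -1}`. -/
def Triv (S : Set (MvPolynomial (Fin (R + (n + 1))) ℚ)) (m : ℕ) : Prop :=
  ∃ η : Fin (n + 1) → ℚ, (∀ i, η i = 0 ∨ η i = 1 ∨ η i = -1) ∧
    ∀ c : Fin R → ℤ, IsPt S (fun i => (c i : ℚ)) m η

open Classical in
/-- The number of the pairs `(a, c)` with `a` in the box `∏ [b_i, b_i + H_i)`, with `c` in
the box `∏ [b'_i, b'_i + H'_i)`, and with the property `P a c`. -/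
noncomputable def inBox (b : Fin D → ℤ) (H : Fin D → ℕ) (b' : Fin R × Fin D → ℤ)
    (H' : Fin R × Fin D → ℕ) (P : (Fin D → ℤ) → (Fin R × Fin D → ℤ) → Prop) : ℕ :=
  (((Fintype.piFinset fun i => Finset.Ico (b i) (b i + H i)) ×ˢ
    (Fintype.piFinset fun i => Finset.Ico (b' i) (b' i + H' i))).filter
      (fun p => P p.1 p.2)).card

/-- The number of all pairs `(a, c)` in boxes with the sides `H` and `H'`. -/
noncomputable def vol (H : Fin D → ℕ) (H' : Fin R × Fin D → ℕ) : ℝ :=
  (∏ i, (H i : ℝ)) * ∏ i, (H' i : ℝ)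

/-- The number of the triples `(m, a, c)` with `1 ≤ m ≤ M`, with `(a, c)` in the boxes
as above, and with the property `P m a c`. -/
noncomputable def triples (M : ℕ) (b : Fin D → ℤ) (H : Fin D → ℕ) (b' : Fin R × Fin D → ℤ)
    (H' : Fin R × Fin D → ℕ) (P : ℕ → (Fin D → ℤ) → (Fin R × Fin D → ℤ) → Prop) : ℕ :=
  ∑ m ∈ Finset.Icc 1 M, inBox b H b' H' (P m)

/-- The set `A` of positive integers has natural density `δ`. -/
def HasDensity (A : Set ℕ) (δ : ℝ) : Prop :=
  Tendsto (fun N : ℕ => ((A ∩ Set.Icc 1 N).ncard : ℝ) / N) atTop (𝓝 δ)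

/-- The family of all linear combinations of the monomials `y^{α_l}`:
`X_c = {y : ∑ c_l y_0^{α_{l,0}} ... y_n^{α_{l,n}} = 0}`. -/
noncomputable def sparse (α : Fin R → Fin (n + 1) → ℕ) :
    MvPolynomial (Fin (R + (n + 1))) ℚ :=
  ∑ l, MvPolynomial.X (Fin.castAdd (n + 1) l) *
    ∏ j, MvPolynomial.X (Fin.natAdd R j) ^ α l j

lemma inBox_le (b : Fin D → ℤ) (H : Fin D → ℕ) (b' : Fin R × Fin D → ℤ)
    (H' : Fin R × Fin D → ℕ) (P : (Fin D → ℤ) → (Fin R × Fin D → ℤ) → Prop) :
    (inBox b H b' H' P : ℝ) ≤ vol H H' := by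
  classical
  have h1 : inBox b H b' H' P ≤ (∏ i, H i) * ∏ i, H' i := by
    refine (Finset.card_filter_le _ _).trans (le_of_eq ?_)
    rw [Finset.card_product, Fintype.card_piFinset, Fintype.card_piFinset]
    congr 1
    · refine Finset.prod_congr rfl fun i _ => ?_
      rw [Int.card_Ico]
      omega
    · refine Finset.prod_congr rfl fun i _ => ?_
      rw [Int.card_Ico]
      omega
  unfold vol
  exact_mod_cast h1

lemma inBox_mono (b : Fin D → ℤ) (H : Fin D → ℕ) (b' : Fin R × Fin D → ℤ)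
    (H' : Fin R × Fin D → ℕ) {P Q : (Fin D → ℤ) → (Fin R × Fin D → ℤ) → Prop}
    (h : ∀ a c, P a c → Q a c) : (inBox b H b' H' P : ℝ) ≤ inBox b H b' H' Q := by
  classical
  have : inBox b H b' H' P ≤ inBox b H b' H' Q :=
    Finset.card_le_card (Finset.monotone_filter_right _ fun p _ => h p.1 p.2)
  exact_mod_cast this

lemma inBox_false (b : Fin D → ℤ) (H : Fin D → ℕ) (b' : Fin R × Fin D → ℤ)
    (H' : Fin R × Fin D → ℕ) {P : (Fin D → ℤ) → (Fin R × Fin D → ℤ) → Prop}
    (h : ∀ a c, ¬ P a c) : inBox b H b' H' P = 0 := by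
  classical
  rw [inBox, Finset.filter_false_of_mem fun p _ => h p.1 p.2, Finset.card_empty]

lemma vol_nonneg (H : Fin D → ℕ) (H' : Fin R × Fin D → ℕ) : 0 ≤ vol H H' :=
  mul_nonneg (Finset.prod_nonneg fun _ _ => Nat.cast_nonneg _)
    (Finset.prod_nonneg fun _ _ => Nat.cast_nonneg _)

open Classical in
/-- the count for fixed `m` -/
theorem main_count {S : Set (MvPolynomial (Fin (R + (n + 1))) ℚ)}
    {S' : Finset (MvPolynomial (Fin (R + (n + 1))) ℤ)}
    (hS' : ∀ F ∈ S', ∃ d, Pool.Agent.H912.AE.FormY F d)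
    (hSS : ∀ (K : Type) [Field K] [Algebra ℚ K] (z : Fin (R + (n + 1)) → K),
        (∀ F ∈ S', MvPolynomial.aeval z F = 0) ↔ ∀ F ∈ S, MvPolynomial.aeval z F = 0)
    (ε : ℝ) (hε : 0 < ε) :
    ∃ H₀ N₀ : ℕ, ∀ M : ℕ, N₀ ≤ M → (((Finset.range M).filter (fun m =>
      ¬ (Pool.Agent.H912.AE.TrivB S' m ∨
        ∀ ω : ((Fin (D + 1) → ℤ) × (Fin (D + 1) → ℕ)) ×
            ((Fin R × Fin (D + 1) → ℤ) × (Fin R × Fin (D + 1) → ℕ)),
          ((∀ i, H₀ ≤ ω.1.2 i) ∧ ∀ i, H₀ ≤ ω.2.2 i) →
          (inBox ω.1.1 ω.1.2 ω.2.1 ω.2.2 (fun a c => ∀ (q : ℕ) [Fact q.Prime], q ≤ H₀ →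
            LocSol S m a c q) : ℝ) ≤ ε * vol ω.1.2 ω.2.2))).card : ℝ) ≤ ε * M := by
  obtain ⟨H₀, N₀, h⟩ := Pool.Agent.H912.AE.familiesN S' hS' D hε
  refine ⟨H₀, N₀, fun M hM => le_trans ?_ (h M hM)⟩
  refine Nat.cast_le.2 (Finset.card_le_card fun m hm => ?_)
  rw [Finset.mem_filter] at hm ⊢
  refine ⟨hm.1, fun h2 => hm.2 (h2.imp id fun h3 ω hω => le_trans ?_
    (h3 ω.1.1 ω.1.2 ω.2.1 ω.2.2 hω.1 hω.2))⟩
  refine Nat.cast_le.2 (Finset.card_le_card
    (Finset.monotone_filter_right _ fun p _ hp q _ hq z hz => ?_))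
  obtain ⟨x, hx, h⟩ := hp q hq z hz
  exact ⟨x, hx, (hSS ℚ_[q] _).2 h⟩

/-- a field generated by a root of a polynomial maps to `k` with any given value of the root -/
lemma exists_lift {F K k : Type} [Field F] [Field K] [Field k] [Algebra F K] (φ : F →+* k)
    {θ : K} (hθ : IsIntegral F θ) (htop : IntermediateField.adjoin F {θ} = ⊤) {z : k}
    (hz : (minpoly F θ).eval₂ φ z = 0) : ∃ ψ : K →+* k, ψ θ = z := by
  let _ : Algebra F k := φ.toAlgebra
  have h1 : Polynomial.aeval z (minpoly F (IntermediateField.adjoin.powerBasis hθ).gen) = 0 := by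
    rw [IntermediateField.adjoin.powerBasis_gen, IntermediateField.minpoly_gen]
    exact hz
  let ψ₁ : IntermediateField.adjoin F {θ} →ₐ[F] k :=
    (IntermediateField.adjoin.powerBasis hθ).lift z h1
  let e : IntermediateField.adjoin F {θ} ≃ₐ[F] K :=
    (IntermediateField.equivOfEq htop).trans IntermediateField.topEquiv
  let ψ : K →ₐ[F] k := ψ₁.comp e.symm.toAlgHom
  refine ⟨ψ.toRingHom, ?_⟩
  have h2 : e (IntermediateField.adjoin.powerBasis hθ).gen = θ := by
    rw [IntermediateField.adjoin.powerBasis_gen]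
    rfl
  have h3 : e.symm θ = (IntermediateField.adjoin.powerBasis hθ).gen := by
    have h5 := congrArg e.symm h2
    rw [e.symm_apply_apply] at h5
    exact h5.symm
  have h4 : ψ₁ (e.symm θ) = z := by
    rw [h3]
    exact (IntermediateField.adjoin.powerBasis hθ).lift_gen z h1
  exact h4

lemma aeval_sparse {K : Type} [Field K] [Algebra ℚ K] (α : Fin R → Fin (n + 1) → ℕ)
    (c : Fin R → K) (y : Fin (n + 1) → K) :
    MvPolynomial.aeval (Fin.append c y) (sparse α) = ∑ l, c l * ∏ j, y j ^ α l j := by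
  simp only [sparse, map_sum, map_mul, map_prod, map_pow, MvPolynomial.aeval_X, Fin.append_left,
    Fin.append_right]

lemma isFamily_sparse {α : Fin R → Fin (n + 1) → ℕ} {e : ℕ} (hα : ∀ l, ∑ j, α l j = e) :
    IsFamily {sparse α} := by
  classical
  rintro F rfl
  refine ⟨e, fun β hβ => ?_⟩
  have h1 := MvPolynomial.support_sum hβ
  rw [Finset.mem_biUnion] at h1
  obtain ⟨l, -, hl⟩ := h1
  have h2 : (MvPolynomial.X (Fin.castAdd (n + 1) l) *
      ∏ j, MvPolynomial.X (Fin.natAdd R j) ^ α l j : MvPolynomial (Fin (R + (n + 1))) ℚ) =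
      MvPolynomial.monomial (Finsupp.single (Fin.castAdd (n + 1) l) 1 +
        ∑ j, Finsupp.single (Fin.natAdd R j) (α l j)) 1 := by
    have h3 : (∏ j, MvPolynomial.X (Fin.natAdd R j) ^ α l j :
        MvPolynomial (Fin (R + (n + 1))) ℚ) =
        MvPolynomial.monomial (∑ j, Finsupp.single (Fin.natAdd R j) (α l j)) 1 := by
      rw [MvPolynomial.monomial_sum_one]
      refine Finset.prod_congr rfl fun j _ => ?_
      rw [MvPolynomial.X_pow_eq_monomial]
    rw [h3, MvPolynomial.X, MvPolynomial.monomial_mul, one_mul]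
  rw [h2] at hl
  have h3 := Finset.mem_singleton.1 (MvPolynomial.support_monomial_subset hl)
  rw [h3, ← hα l]
  refine Finset.sum_congr rfl fun j _ => ?_
  rw [Finsupp.add_apply, Finsupp.single_apply, if_neg, zero_add, Finsupp.finsetSum_apply,
    Finset.sum_eq_single j, Finsupp.single_eq_same]
  · intro i _ hi
    rw [Finsupp.single_apply, if_neg]
    intro h
    have := congrArg Fin.val h
    simp only [Fin.val_natAdd] at this
    exact hi (Fin.ext (by omega))
  · exact fun h => absurd (Finset.mem_univ _) h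
  · intro h
    have := congrArg Fin.val h
    simp only [Fin.val_castAdd, Fin.val_natAdd] at this
    omega

/-- **Main theorem.** Let `(X_c)` be an arbitrary family of closed subsets of `ℙ^n` over `ℚ`, with
the parameters `c = (c_1, ..., c_R)`, given by a set `S` of polynomials `F(c; y)` which are forms
in `y`, and let `D ≥ 1`.

1. For every `ε > 0` there is `H₀` such that for all `M ≥ H₀` and all boxes with sides `≥ H₀`
   there are at most `ε M vol` triples `(m, a, c)`, `m ≤ M`, `(a, c)` in the boxes, for which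
   `X_{c(z),m}` has a `ℚ_q`-point for all primes `q ≤ H₀` and all roots `z` of `f_a` in `ℚ_q`,
   although the `X_{c,m}` do not have a common point with coordinates in `{0, 1, -1}`.
2. If `K = ℚ(θ)`, where `θ` has the minimal polynomial `f_a`, and if `X_{c(θ),m}` has a point over
   `K`, then `X_{c(z),m}` has a `ℚ_q`-point for all primes `q` and all roots `z` of `f_a` in `ℚ_q`.
3. (All hypersurfaces of degree `e`, in particular all plane curves.)  Let `α_l` be exponent
   vectors of degree `e`, with `x_0^e, ..., x_n^e` among the monomials.  For every `ε > 0` and all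
   `m` outside a set of density zero there is `H₀` such that in all boxes with sides `≥ H₀` the
   proportion of the pairs `(a, c)` for which the hypersurface
   `∑ c_l(z) x^{m α_l} = 0` has a `ℚ_q`-point for all primes `q ≤ H₀` and all roots `z` of `f_a`
   in `ℚ_q` is at most `ε`. -/
theorem result (hD : 0 < D) :
    (∀ S : Set (MvPolynomial (Fin (R + (n + 1))) ℚ), IsFamily S →
      (∀ ε : ℝ, 0 < ε → ∃ H₀ : ℕ, ∀ (M : ℕ) (b : Fin D → ℤ) (H : Fin D → ℕ)
        (b' : Fin R × Fin D → ℤ) (H' : Fin R × Fin D → ℕ), H₀ ≤ M → (∀ i, H₀ ≤ H i) →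
        (∀ i, H₀ ≤ H' i) → (triples M b H b' H' (fun m a c => (∀ (q : ℕ) [Fact q.Prime],
          q ≤ H₀ → LocSol S m a c q) ∧ ¬ Triv S m) : ℝ) ≤ ε * (M * vol H H')) ∧
      (∀ (m : ℕ) (a : Fin D → ℤ) (c : Fin R × Fin D → ℤ), GlobSol S m a c →
        ∀ (q : ℕ) [Fact q.Prime], LocSol S m a c q)) ∧
    ∀ (α : Fin R → Fin (n + 1) → ℕ) (e : ℕ), (∀ l, ∑ j, α l j = e) →
      (∀ j, ∃ l, α l = Pi.single j e) → ∀ ε : ℝ, 0 < ε →
      HasDensity {m | ∃ H₀ : ℕ, ∀ (b : Fin D → ℤ) (H : Fin D → ℕ)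
        (b' : Fin R × Fin D → ℤ) (H' : Fin R × Fin D → ℕ), (∀ i, H₀ ≤ H i) →
        (∀ i, H₀ ≤ H' i) → (inBox b H b' H' (fun a c => ∀ (q : ℕ) [Fact q.Prime],
          q ≤ H₀ → LocSol {sparse α} m a c q) : ℝ) ≤ ε * vol H H'} 1 := by
  classical
  obtain ⟨D, rfl⟩ : ∃ e, D = e + 1 := ⟨D - 1, by omega⟩
  refine ⟨fun S hS => ?_, fun α e hα hα' ε hε => ?_⟩
  · obtain ⟨S', hS', hSS⟩ := Pool.Agent.H912.AE.reduceF S hS
    have hT := Pool.Agent.H912.AE.trivB_iff hSS
    constructor
    · intro ε hε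
      obtain ⟨H₀, h⟩ := Pool.Agent.H912.AE.avg_sum
        (fun ω : ((Fin (D + 1) → ℤ) × (Fin (D + 1) → ℕ)) ×
            ((Fin R × Fin (D + 1) → ℤ) × (Fin R × Fin (D + 1) → ℕ)) => vol ω.1.2 ω.2.2)
        (fun ω => vol_nonneg _ _)
        (fun H₀ ω => (∀ i, H₀ ≤ ω.1.2 i) ∧ ∀ i, H₀ ≤ ω.2.2 i)
        (fun a b ω hab h => ⟨fun i => hab.trans (h.1 i), fun i => hab.trans (h.2 i)⟩)
        (fun H₀ m ω => (inBox ω.1.1 ω.1.2 ω.2.1 ω.2.2 (fun a c =>
          ∀ (q : ℕ) [Fact q.Prime], q ≤ H₀ → LocSol S m a c q) : ℝ))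
        (fun _ _ _ => inBox_le _ _ _ _ _)
        (fun a b m ω hab => inBox_mono _ _ _ _ fun e c he q _ hq => he q (hq.trans hab))
        (Pool.Agent.H912.AE.TrivB S') (main_count hS' hSS) hε
      refine ⟨H₀, fun M b H b' H' hM hH hH' => le_trans ?_ (h M ((b, H), (b', H')) hM ⟨hH, hH'⟩)⟩
      rw [triples, Nat.cast_sum]
      refine Finset.sum_le_sum fun m _ => ?_
      by_cases ht : Pool.Agent.H912.AE.TrivB S' m
      · rw [if_pos ht, inBox_false b H b' H' fun a c hc => hc.2 ((hT m).1 ht), Nat.cast_zero]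
      · rw [if_neg ht]
        exact inBox_mono _ _ _ _ fun a c he => he.1
    · rintro m a c ⟨K, _, _, θ, hθ, hmin, htop, x, hx, hx1⟩ q _ z hz
      have h1 : (minpoly ℚ θ).eval₂ (algebraMap ℚ ℚ_[q]) z = 0 := by
        rw [hmin]
        exact (Pool.Agent.H912.AE.pol_cast (algebraMap ℚ ℚ_[q]) a z).trans hz
      obtain ⟨ψ, hψ⟩ := exists_lift _ hθ htop h1
      refine ⟨fun i => ψ (x i), ?_, ?_⟩
      · intro h0
        apply hx
        funext i
        have := congrFun h0 i
        simpa using this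
      · refine (hSS ℚ_[q] _).1 fun F hF => ?_
        have h2 := (hSS K _).2 hx1 F hF
        have h3 := Pool.Agent.H912.AE.aeval_ringHom ψ
          (Fin.append (param θ c) (fun j => x j ^ m)) F
        rw [h2, map_zero, Pool.Agent.H912.AE.append_hom] at h3
        have h4 : (fun i => ψ (param θ c i)) = param z c := by
          funext i
          simp only [param, map_sum, map_mul, map_pow, map_intCast, hψ]
        simp only [map_pow, h4] at h3
        exact h3.symm
  · obtain ⟨S', hS', hSS⟩ := Pool.Agent.H912.AE.reduceF {sparse α} (isFamily_sparse hα)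
    have hnt : ∀ m, ¬ Pool.Agent.H912.AE.TrivB S' m := by
      intro m hm
      obtain ⟨η, -, h⟩ := (Pool.Agent.H912.AE.trivB_iff hSS m).1 hm
      obtain ⟨i, hi⟩ := Function.ne_iff.1 (h 0).1
      obtain ⟨l, hl⟩ := hα' i
      have h1 := (h (Pi.single l 1)).2 _ rfl
      rw [aeval_sparse, Finset.sum_eq_single l, Finset.prod_eq_single i] at h1
      · rw [Pi.single_eq_same, hl, Pi.single_eq_same] at h1
        simp only [Int.cast_one, one_mul] at h1
        exact pow_ne_zero _ (pow_ne_zero m hi) h1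
      · intro j _ hj
        rw [hl, Pi.single_eq_of_ne hj, pow_zero]
      · exact fun h => absurd (Finset.mem_univ _) h
      · intro j _ hj
        rw [Pi.single_eq_of_ne hj]
        simp
      · exact fun h => absurd (Finset.mem_univ _) h
    refine Pool.Agent.H912.AE.full_of fun ε' hε' => ?_
    obtain ⟨H₀, N₀, h⟩ := main_count (D := D) hS' hSS (min ε ε') (lt_min hε hε')
    refine ⟨N₀, fun M hM => le_trans ?_ ((h M hM).trans
      (mul_le_mul_of_nonneg_right (min_le_right _ _) (Nat.cast_nonneg _)))⟩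
    refine Nat.cast_le.2 (Finset.card_le_card fun m hm => ?_)
    rw [Finset.mem_filter] at hm ⊢
    refine ⟨hm.1, fun h2 => hm.2 ?_⟩
    rcases h2 with h2 | h2
    · exact absurd h2 (hnt m)
    refine ⟨H₀, fun b H b' H' hH hH' => ?_⟩
    exact (h2 ((b, H), (b', H')) ⟨hH, hH'⟩).trans
      (mul_le_mul_of_nonneg_right (min_le_left _ _) (vol_nonneg _ _))

end Pool.Agent.Results.MP_ab3ecb_nt.MostCurvesOverMostFields
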