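import Pool.Agent.H438.CT.Adel

/-!
# Adelic points of closed subsets of products of cubic twists which survive the descent

Let `K` be the field of third roots of unity and `E_D : y² + D y = x³`. Consider the squarefree `D` in
the ring of integers which are `1` modulo `3` and whose norm is not `1` modulo `9`, ordered by the norm.
For a proportion `0.639...` of them `E_D(K)` is finite and `Ш(E_D / K)[3^∞] = 0` (`Good` below; this is
unconditional, from the law of the Selmer groups of the cubic twists in the library).

Let `D_1, …, D_n` be good, not necessarily different, and let `X` be any closed subset of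
`E_{D_1} × … × E_{D_n}` over `K`. Consider the finite adelic points `P` of `X` such that for every `k`
all the components of `P` lift to one and the same `3 ^ k`-covering of the product. (This holds for
the points which are orthogonal to the Brauer group of `X`, and for the images of such points of a
curve `C` with a map to `X`.) Then there is a tuple `y` of the rational points `O`, `(0, 0)`,
`(0, -D_i)` such that

* the components `P v` are congruent to `y` modulo `3 ^ k • E_{D_i}(K_v)` for all `k` and `v`;
* the component at the place above three satisfies `2 • P v i = 2 • y i`, and `P v i = y i` if `D_i`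
  is not `-2` modulo `9`;
* so if no `D_i` is `-2` modulo `9`, then `y` is a rational point of `X` and the component of `P` at
  three is equal to `y`.

Moreover one level is enough for the Hasse principle: if no `D_i` is `-2` modulo `9` and none of the
`3 ^ n` points `y` is on `X`, then for some `k` no finite adelic point of `X` lifts to a
`3 ^ k`-covering.

For a curve `C` over `K` with a map to `X`, Stoll's conjecture says that the adelic points of `C`
orthogonal to the Brauer group are in the closure of `C(K)`. The theorem proves that their components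
at three are over rational points of `X`, and the Hasse principle part if `X(K)` is empty. Nothing is
assumed about the other primary parts of the Tate-Shafarevich groups.
-/

set_option autoImplicit false

open IsDedekindDomain NumberField WeierstrassCurve MvPolynomial Pool.Agent.TH954

open scoped Classical

namespace Pool.Agent.Results.MP_ab3ecb_nt.ProductsOfCubicTwists

/-- the curve `E_D : y² + D y = x³` -/
def curve {K : Type} [Field K] (D : K) : WeierstrassCurve K := ⟨0, 0, D, 0, 0⟩

/-- `D` is squarefree and `1` modulo `3`, and its norm is not `1` modulo `9`. -/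
def InClass {K : Type} [Field K] [NumberField K] (D : 𝓞 K) : Prop :=
  (3 : 𝓞 K) ∣ D - 1 ∧ Squarefree D ∧ ¬ (9 : ℤ) ∣ Algebra.norm ℤ D - 1

/-- `D` is in the class, `E_D(K)` is finite and the 3-primary part of `Ш(E_D / K)` is trivial. -/
def Good {K : Type} [Field K] [NumberField K] (D : 𝓞 K) : Prop :=
  InClass D ∧ Finite (curve (D : K)).toAffine.Point ∧
    ∀ (n : ℕ) (x : Pool.Agent.TH841.NF.D.Sha (curve (D : K))), 3 ^ n • x = 0 → x = 0

/-- The proportion of the good elements among the elements of the class of norm at most `X`. -/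
noncomputable def proportion (K : Type) [Field K] [NumberField K] (X : ℕ) : ℝ :=
  ({D : 𝓞 K | Algebra.norm ℤ D ≤ X ∧ Good D}.ncard : ℝ) /
    ({D : 𝓞 K | Algebra.norm ℤ D ≤ X ∧ InClass D}.ncard : ℝ)

/-- The points of the product of the curves `E_{D i}` over the extension `L` of `K`. -/
abbrev Pts {K : Type} [Field K] [NumberField K] {n : ℕ} (D : Fin n → 𝓞 K) (L : Type) [Field L]
    [Algebra K L] : Type :=
  (i : Fin n) → ((curve (D i : K)).baseChange L).toAffine.Point

/-- All the components of `y` are among the points `O`, `(0, 0)`, `(0, -D i)`. -/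
def IsTor {K : Type} [Field K] [NumberField K] {n : ℕ} {D : Fin n → 𝓞 K} (y : Pts D K) : Prop :=
  ∀ i, crd (y i) = ![0, 1, 0] ∨ crd (y i) = ![0, 0, 1] ∨ crd (y i) = ![0, -(D i : K), 1]

/-- The rational point `y` as a point over the extension `L`. -/
noncomputable def ratPt {K : Type} [Field K] [NumberField K] {n : ℕ} {D : Fin n → 𝓞 K}
    (y : Pts D K) (L : Type) [Field L] [Algebra K L] : Pts D L :=
  fun i => Affine.Point.map (W' := curve (D i : K)) (Algebra.ofId K L) (y i)

/-- The point `P` over the extension `L` of `K` lifts to the `N`-covering given by the cocycles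
`ξ i`: there are points `Q i` over the algebraic closure of `L` with `N • Q i = P i` on which the
Galois group of `L` acts by translation by the `ξ i`. -/
def LiftsOver {K : Type} [Field K] [NumberField K] {n : ℕ} (D : Fin n → 𝓞 K) (N : ℕ)
    (ξ : (i : Fin n) → (AlgebraicClosure K ≃ₐ[K] AlgebraicClosure K) → AlgPt (curve (D i : K)) K)
    (L : Type) [Field L] [Algebra K L] (P : Pts D L) : Prop :=
  ∃ (ι : AlgebraicClosure K →ₐ[K] AlgebraicClosure L)
    (Q : (i : Fin n) → AlgPt (curve (D i : K)) L),
    (∀ i, N • Q i = incl (curve (D i : K)) L (P i)) ∧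
      ∀ i σ τ, Compat ι σ τ → pm (curve (D i : K)) ι (ξ i τ) =
        act (curve (D i : K)) σ (Q i) - Q i

/-- All the components of the finite adelic point `P` lift to one and the same `N`-covering of the
product of the curves, given by cocycles `ξ i` with values in the points of order dividing `N`. -/
def Lifts {K : Type} [Field K] [NumberField K] {n : ℕ} (D : Fin n → 𝓞 K) (N : ℕ)
    (P : (v : HeightOneSpectrum (𝓞 K)) → Pts D (v.adicCompletion K)) : Prop :=
  ∃ ξ : (i : Fin n) → (AlgebraicClosure K ≃ₐ[K] AlgebraicClosure K) →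
      AlgPt (curve (D i : K)) K,
    (∀ i, IsCocycle (curve (D i : K)) (ξ i)) ∧ (∀ i σ, N • ξ i σ = 0) ∧
    ∀ v, LiftsOver D N ξ (v.adicCompletion K) (P v)

/-- The components of `P` are congruent to `y` modulo all powers of three, and at the place above
three they are equal to `y` up to points of order two, and equal to `y` if `D i` is not `-2`
modulo `9`. -/
def Near {K : Type} [Field K] [NumberField K] {n : ℕ} (D : Fin n → 𝓞 K)
    (P : (v : HeightOneSpectrum (𝓞 K)) → Pts D (v.adicCompletion K)) (y : Pts D K) : Prop :=
  (∀ v i (k : ℕ), ∃ z, P v i = ratPt y (v.adicCompletion K) i + 3 ^ k • z) ∧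
  ∀ v : HeightOneSpectrum (𝓞 K), ((3 : ℕ) : 𝓞 K) ∈ v.asIdeal → ∀ i,
    2 • P v i = 2 • ratPt y (v.adicCompletion K) i ∧
    (¬ (9 : 𝓞 K) ∣ D i + 2 → P v i = ratPt y (v.adicCompletion K) i)

/-- **Theorem.** Let `K` be the field of third roots of unity. A proportion of more than `0.639` of
the `D` of the class is good, and for all good `D i` and all closed subsets of the product of the
curves the statements above hold. -/
theorem result (K : Type) [Field K] [NumberField K] [IsCyclotomicExtension {3} ℚ K] :
    (∃ c : ℝ, 0.639 < c ∧ Filter.Tendsto (proportion K) Filter.atTop (nhds c)) ∧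
    ∀ (n : ℕ) (D : Fin n → 𝓞 K), (∀ i, Good (D i)) →
      ∀ (S : Set (MvPolynomial (Fin n × Fin 3) K)), (∀ f ∈ S, ∃ d, MultiHom d f) →
      (∀ P : (v : HeightOneSpectrum (𝓞 K)) → Pts D (v.adicCompletion K),
        (∀ v, OnX S (fun i => crd (P v i))) → (∀ k, Lifts D (3 ^ k) P) →
        ∃ y : Pts D K, IsTor y ∧ Near D P y ∧
          ((∀ i, ¬ (9 : 𝓞 K) ∣ D i + 2) → OnX S (fun i => crd (y i)))) ∧
      ((∀ i, ¬ (9 : 𝓞 K) ∣ D i + 2) → (∀ y : Pts D K, IsTor y → ¬ OnX S (fun i => crd (y i))) →
        ∃ k : ℕ, ∀ P : (v : HeightOneSpectrum (𝓞 K)) → Pts D (v.adicCompletion K),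
          (∀ v, OnX S (fun i => crd (P v i))) → ¬ Lifts D (3 ^ k) P) := by
  refine ⟨?_, ?_⟩
  · obtain ⟨-, h2, h3, ⟨h4, -, -⟩, -⟩ := Pool.Agent.XL6.finalXL K
    refine ⟨Pool.Agent.XL6.prob 0, h4, (h3 0).congr fun X => ?_⟩
    have e : {D : 𝓞 K | Algebra.norm ℤ D ≤ X ∧ Pool.Agent.Y696.CTK.ClsK D ∧
        (Pool.Agent.XL6.SelK (D : K)).ncard = 3 ^ (0 + 1)} =
        {D : 𝓞 K | Algebra.norm ℤ D ≤ X ∧ Good D} := by
      ext D
      refine and_congr_right fun _ => ⟨fun h => ⟨h.1, ?_⟩, fun h => ⟨h.1, ?_⟩⟩
      · exact (h2 D h.1).2.2.1 (by rw [h.2]; norm_num)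
      · rw [(h2 D h.1).2.2.2 h.2]; norm_num
    rw [e]
    rfl
  · intro n D hD S hS
    obtain ⟨v, hv⟩ := Pool.Agent.H438.CT.exists_above_three K
    refine ⟨fun P hP hk => ?_, fun h9 hX => ?_⟩
    · obtain ⟨y, h1, h2, h3⟩ := Pool.Agent.H438.CT.adel (fun i => (hD i).1)
        (fun i => (hD i).2) P hk
      exact ⟨y, fun i => (h1 i).2, ⟨h2, h3⟩,
        fun h9 => Pool.Agent.H438.CT.onX_of_near h9 v (hP v) (h3 v hv)⟩
    · obtain ⟨k, hk⟩ := Pool.Agent.H438.CT.fin_level (fun i => (hD i).1) (fun i => (hD i).2) S hS h9
        (fun y hy => hX y fun i => Pool.Agent.H438.CT.tor_crd (hD i).1 (hD i).2 (hy i)) v hv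
      exact ⟨k, fun P hP => hk P (hP v)⟩

end Pool.Agent.Results.MP_ab3ecb_nt.ProductsOfCubicTwists
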