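import Pool.Agent.H438.QT.Tor

/-!
# Adelic points of closed subsets of products of quadratic twists of `X_0(49)` which survive the
# two-power descent over `ℚ`

Let `E_D : y² = x³ - 2835 D² x - 71442 D³`; this is the quadratic twist by `D` of the curve
`X_0(49) : y² + x y = x³ - x² - 2 x - 1`, with complex multiplication by the integers of `ℚ(√-7)`.
Consider the squarefree `D ≥ 1` all whose prime factors are `1` modulo `4`. For the proportion
`c = 0.4194...` of them `E_D(ℚ)` is finite and `Ш(E_D / ℚ)[2] = 0` (`Good` below), and there are at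
least `a X / √(log X)` of them up to `X`. This is unconditional, from the 2-descent and the counting in
the library (`MP_92892c_nt.FullClassTwoPartX49`).

Let `D_1, …, D_n` be good, not necessarily different. We prove:

* `E_{D_i}(ℚ)` consists of `O` and of the point `(63 D_i, 0)` of order two;
* let `P` be an adelic point of `E_{D_1} × … × E_{D_n}` (with components at all finite and infinite
  places) such that for every `k` all the components of `P` lift to one and the same `2 ^ k`-covering of
  the product. Then there is a rational point `y` (one of the `2 ^ n` tuples of the points above)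
  with `P_v` in `y + 2 ^ k E(ℚ_v)` for all `k` and all `v`, and the component of `P` at two is equal
  to `y`. So if this component is on a closed subset `X`, then `y` is in `X(ℚ)`;
* one level is enough for the Hasse principle: if `X` is a closed subset and `X(ℚ)` is empty, then for
  some `k` no adelic point of the product whose component at two is on `X`, and so no adelic point of
  `X`, lifts to a `2 ^ k`-covering.

Here the curves `E_D` have a rational point of order two which is a genuine element of all the Selmer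
groups (the curves do not satisfy `E(ℚ) / 2 E(ℚ) = 0`), and `E_D` has all its points of order two over
`ℚ_2`. The local input is that `8 E_D(ℚ_2)` is in the kernel of the reduction for the minimal equation,
so that the points of odd order in `E_D(ℚ_2)` are trivial. Nothing is assumed about the odd part of the
Tate-Shafarevich groups.
-/

set_option autoImplicit false

open IsDedekindDomain NumberField WeierstrassCurve MvPolynomial Pool.Agent.TH954

open scoped Classical

namespace Pool.Agent.Results.MP_ab3ecb_nt.ProductsOfTwistsOfX49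

/-- the curve `E_D : y² = x³ - 2835 D² x - 71442 D³`, the twist by `D` of `X_0(49)` -/
def curve (L : Type) [Field L] (D : ℕ) : WeierstrassCurve L :=
  ⟨0, 0, 0, -2835 * (D : L) ^ 2, -71442 * (D : L) ^ 3⟩

/-- `D` is squarefree and all its prime factors are `1` modulo `4`. -/
def InClass (D : ℕ) : Prop := Squarefree D ∧ ∀ p ∈ D.primeFactors, p % 4 = 1

/-- `D` is in the class, `E_D(ℚ)` is finite and `Ш(E_D / ℚ)` has no element of order two. -/
def Good (D : ℕ) : Prop :=
  InClass D ∧ Finite (curve ℚ D).toAffine.Point ∧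
    ∀ x : Pool.Agent.TH841.NF.D.Sha (curve ℚ D), 2 • x = 0 → x = 0

/-- the number of the `D ≤ X` with the property `Q` -/
noncomputable def number (Q : ℕ → Prop) (X : ℕ) : ℝ := ({D : ℕ | D ≤ X ∧ Q D}.ncard : ℝ)

/-- The points of the product of the curves `E_{D i}` over the extension `L` of `ℚ`. -/
abbrev Pts {n : ℕ} (D : Fin n → ℕ) (L : Type) [Field L] [Algebra ℚ L] : Type :=
  (i : Fin n) → ((curve ℚ (D i)).baseChange L).toAffine.Point

/-- All the components of `y` are among the points `O` and `(63 D i, 0)`. -/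
def IsTor {n : ℕ} {D : Fin n → ℕ} (y : Pts D ℚ) : Prop :=
  ∀ i, crd (y i) = ![0, 1, 0] ∨ crd (y i) = ![63 * (D i : ℚ), 0, 1]

/-- The rational point `y` as a point over the extension `L`. -/
noncomputable def ratPt {n : ℕ} {D : Fin n → ℕ} (y : Pts D ℚ) (L : Type) [Field L] [Algebra ℚ L] :
    Pts D L :=
  fun i => Affine.Point.map (W' := curve ℚ (D i)) (Algebra.ofId ℚ L) (y i)

/-- The point `P` over the extension `L` of `ℚ` lifts to the `N`-covering given by the cocycles
`ξ i`: there are points `Q i` over the algebraic closure of `L` with `N • Q i = P i` on which the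
Galois group of `L` acts by translation by the `ξ i`. -/
def LiftsOver {n : ℕ} (D : Fin n → ℕ) (N : ℕ)
    (ξ : (i : Fin n) → (AlgebraicClosure ℚ ≃ₐ[ℚ] AlgebraicClosure ℚ) → AlgPt (curve ℚ (D i)) ℚ)
    (L : Type) [Field L] [Algebra ℚ L] (P : Pts D L) : Prop :=
  ∃ (ι : AlgebraicClosure ℚ →ₐ[ℚ] AlgebraicClosure L)
    (Q : (i : Fin n) → AlgPt (curve ℚ (D i)) L),
    (∀ i, N • Q i = incl (curve ℚ (D i)) L (P i)) ∧
      ∀ i σ τ, Compat ι σ τ → pm (curve ℚ (D i)) ι (ξ i τ) =
        act (curve ℚ (D i)) σ (Q i) - Q i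

/-- All the components of the adelic point with the components `P v` at the finite places and `R w`
at the infinite places lift to one and the same `N`-covering of the product of the curves, given by
cocycles `ξ i` with values in the points of order dividing `N`. -/
def Lifts {n : ℕ} (D : Fin n → ℕ) (N : ℕ)
    (P : (v : HeightOneSpectrum (𝓞 ℚ)) → Pts D (v.adicCompletion ℚ))
    (R : (w : InfinitePlace ℚ) → Pts D w.Completion) : Prop :=
  ∃ ξ : (i : Fin n) → (AlgebraicClosure ℚ ≃ₐ[ℚ] AlgebraicClosure ℚ) → AlgPt (curve ℚ (D i)) ℚ,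
    (∀ i, IsCocycle (curve ℚ (D i)) (ξ i)) ∧ (∀ i σ, N • ξ i σ = 0) ∧
    (∀ v, LiftsOver D N ξ (v.adicCompletion ℚ) (P v)) ∧ ∀ w, LiftsOver D N ξ w.Completion (R w)

/-- At all places the components of the adelic point are congruent to `y` modulo all powers of two,
and at the place two the component is equal to `y`. -/
def Near {n : ℕ} (D : Fin n → ℕ)
    (P : (v : HeightOneSpectrum (𝓞 ℚ)) → Pts D (v.adicCompletion ℚ))
    (R : (w : InfinitePlace ℚ) → Pts D w.Completion) (y : Pts D ℚ) : Prop :=
  (∀ v i (k : ℕ), ∃ z, P v i = ratPt y (v.adicCompletion ℚ) i + 2 ^ k • z) ∧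
  (∀ w i (k : ℕ), ∃ z, R w i = ratPt y w.Completion i + 2 ^ k • z) ∧
  ∀ v : HeightOneSpectrum (𝓞 ℚ), ((2 : ℕ) : 𝓞 ℚ) ∈ v.asIdeal → P v = ratPt y (v.adicCompletion ℚ)

section proof

lemma number_eq {Q : ℕ → Prop} {R : ℕ → Prop}
    (h : ∀ D, Q D ↔ InClass D ∧ R D) (X : ℕ) : number Q X =
      (Pool.Agent.Results.MP_92892c_nt.FullClassTwoPartX49.num R X : ℝ) := by
  unfold number Pool.Agent.Results.MP_92892c_nt.FullClassTwoPartX49.num
  rw [← Set.ncard_coe_finset]
  congr 2
  ext D
  rw [Set.mem_ofPred_eq, Finset.mem_coe, Finset.mem_filter, Finset.mem_Icc, h]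
  constructor
  · rintro ⟨h1, h2, h3⟩
    have h0 : D ≠ 0 := by
      rintro rfl
      exact not_squarefree_zero h2.1
    exact ⟨⟨Nat.pos_of_ne_zero h0, h1⟩, h2, h3⟩
  · rintro ⟨h1, h2, h3⟩
    exact ⟨h1.2, h2, h3⟩

theorem good_two (D : ℕ) : Good D ↔
    InClass D ∧ Pool.Agent.Results.MP_4a9ea6_nt.TwoPartTwistsX49.TwoPart D := by
  refine and_congr_right fun h => ?_
  rw [(Pool.Agent.Results.MP_92892c_nt.FullClassTwoPartX49.result.1 D h).2]
  exact Pool.Agent.H438.QT.good_iff h

end proof

/-- **Theorem.** The proportion `0.4194...` of the `D` of the class is good. For all good `D i` the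
rational points of the product of the curves are the `2 ^ n` tuples of the points `O` and
`(63 D i, 0)`, and for all closed subsets `X` of the product the statements above hold. -/
theorem result :
    (∃ c : ℝ, 0.4194 < c ∧ c < 0.4195 ∧
      Filter.Tendsto (fun X => number Good X / number InClass X) Filter.atTop (nhds c)) ∧
    (∃ (a : ℝ) (X₀ : ℕ), 0 < a ∧ ∀ X : ℕ, X₀ ≤ X → a * X / Real.sqrt (Real.log X) ≤ number Good X) ∧
    ∀ (n : ℕ) (D : Fin n → ℕ), (∀ i, Good (D i)) →
      (∀ y : Pts D ℚ, IsTor y) ∧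
      ∀ (S : Set (MvPolynomial (Fin n × Fin 3) ℚ)), (∀ f ∈ S, ∃ d, MultiHom d f) →
      (∀ (P : (v : HeightOneSpectrum (𝓞 ℚ)) → Pts D (v.adicCompletion ℚ))
          (R : (w : InfinitePlace ℚ) → Pts D w.Completion), (∀ k, Lifts D (2 ^ k) P R) →
        ∃ y : Pts D ℚ, Near D P R y ∧
          ∀ v : HeightOneSpectrum (𝓞 ℚ), ((2 : ℕ) : 𝓞 ℚ) ∈ v.asIdeal →
            OnX S (fun i => crd (P v i)) → OnX S (fun i => crd (y i))) ∧
      ((∀ y : Pts D ℚ, ¬ OnX S (fun i => crd (y i))) →
        ∃ k : ℕ, ∀ (P : (v : HeightOneSpectrum (𝓞 ℚ)) → Pts D (v.adicCompletion ℚ))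
          (R : (w : InfinitePlace ℚ) → Pts D w.Completion),
          (∀ v : HeightOneSpectrum (𝓞 ℚ), ((2 : ℕ) : 𝓞 ℚ) ∈ v.asIdeal →
            OnX S (fun i => crd (P v i))) → ¬ Lifts D (2 ^ k) P R) := by
  have hlib := Pool.Agent.Results.MP_92892c_nt.FullClassTwoPartX49.result
  refine ⟨⟨Pool.Agent.Results.MP_92892c_nt.FullClassTwoPartX49.cc, hlib.2.2.1, hlib.2.2.2.1, ?_⟩,
    ?_, ?_⟩
  · refine hlib.2.1.congr fun X => ?_
    rw [number_eq good_two, number_eq (R := fun _ => True) (fun D => by rw [and_true])]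
  · obtain ⟨a, X₀, ha, h⟩ := hlib.2.2.2.2
    refine ⟨a, X₀, ha, fun X hX => ?_⟩
    rw [number_eq good_two]
    exact h X hX
  · intro n D hD
    have h4 : ∀ i, D i % 4 = 1 := fun i => Pool.Agent.H438.QT.mod_four (hD i).1
    have hodd : ∀ i, Odd (D i) := fun i => by
      rw [Nat.odd_iff]
      have := h4 i
      omega
    refine ⟨fun y i => Pool.Agent.H438.QT.points_q (hodd i) (hD i).2.1 (y i), fun S hS => ⟨?_, ?_⟩⟩
    · intro P R hk
      obtain ⟨y, h1, h2, h3⟩ := Pool.Agent.H438.QT.surv hodd (fun i => (hD i).2.2)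
        (fun i => (hD i).2.1) P R hk
      refine ⟨y, ⟨h1, h2, fun v hv => funext fun i => h3 v hv i⟩, fun v hv hX => ?_⟩
      refine Pool.Agent.H438.QT.onX_pm (v := v) ?_
      have e : (fun i => crd (P v i)) = fun i => crd (pm (Pool.Agent.H438.QT.crv ℚ (D i))
          (Algebra.ofId ℚ (v.adicCompletion ℚ)) (y i)) :=
        funext fun i => congrArg crd (h3 v hv i)
      rw [e] at hX
      exact hX
    · intro hX
      exact Pool.Agent.H438.QT.fin_level hodd (fun i => (hD i).2.2) (fun i => (hD i).2.1) S hS hX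

end Pool.Agent.Results.MP_ab3ecb_nt.ProductsOfTwistsOfX49
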